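import Pool.Agent.helper68.B2.Defs
import Pool.Agent.helper98.B2.B0b
import Pool.Agent.helper31.B2.B0a
import Pool.Agent.helper98.B2.GA
import Pool.Agent.helper17.B2.W12

/-!
B2 project (MP_b2b189_gt), module GC: unique continuation for the Killing tensors.
-/

set_option autoImplicit false

namespace Pool.Agent.helper68.B2

open scoped ContDiff Topology Matrix
open Matrix Set

namespace Geo
variable (S : Geo)

theorem GC_nabE_add {P : E4 → M3} (u v : V3) (x : E4) :
    S.nabE P (u + v) x = S.nabE P u x + S.nabE P v x := by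
  unfold nabE
  rw [Dv_add_arg, Gam_add]
  noncomm_ring

theorem GC_nabE_smul {P : E4 → M3} (c : ℝ) (v : V3) (x : E4) :
    S.nabE P (c • v) x = c • S.nabE P v x := by
  unfold nabE
  rw [Dv_smul_arg, Gam_smul, smul_mul_assoc, mul_smul_comm, smul_add, smul_sub]

theorem GC_Gam_ee (i : Fin 3) (x : E4) : S.Gam (ee i) x = S.Γ i x := by
  unfold Gam ee
  rw [Finset.sum_eq_single i]
  · simp
  · intro j _ hj
    simp [Pi.single_eq_of_ne hj]
  · simp

/-- derivative of the lowered tensor -/
theorem GC_Dv_lower {P : E4 → M3} {x : E4} (hx : x ≠ 0) (hP : DifferentiableAt ℝ P x) (v : V3) :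
    Dv (fun y => S.G y * P y) v x
      = (S.Gam v x)ᵀ * (S.G x * P x) + (S.G x * P x) * S.Gam v x + S.G x * S.nabE P v x := by
  have hG : DifferentiableAt ℝ S.G x := S.smG.differentiableAt hx
  rw [Dv_mul hG hP, S.metric_v hx v]
  unfold nabE
  noncomm_ring

/-- covariant derivative of a self-adjoint field is self-adjoint -/
theorem GC_sa {P : E4 → M3} (hsa : ∀ x, x ≠ 0 → (S.G x * P x)ᵀ = S.G x * P x) {x : E4}
    (hx : x ≠ 0) (hP : DifferentiableAt ℝ P x) (v : V3) :
    (S.G x * S.nabE P v x)ᵀ = S.G x * S.nabE P v x := by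
  have hG : DifferentiableAt ℝ S.G x := S.smG.differentiableAt hx
  have hGP : DifferentiableAt ℝ (fun y => S.G y * P y) x := by
    exact hG.mul hP
  have h1 := S.GC_Dv_lower hx hP v
  have h2 : Dv (fun y => (S.G y * P y)ᵀ) v x = Dv (fun y => S.G y * P y) v x := by
    unfold Dv
    congr 1
    apply Filter.EventuallyEq.fderiv_eq
    filter_upwards [isOpen_ne.mem_nhds hx] with y hy using hsa y hy
  rw [Dv_transpose hGP, h1] at h2
  have h3 := hsa x hx
  have h4 : ∀ (Q A B : M3), Qᵀ = Q → (Aᵀ * Q + Q * A + B)ᵀ = Aᵀ * Q + Q * A + B → Bᵀ = B := by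
    intro Q A B hQ h
    rw [transpose_add, transpose_add, transpose_mul, transpose_mul, transpose_transpose, hQ,
      add_comm (Q * A)] at h
    exact add_left_cancel h
  exact h4 _ _ _ h3 h2

/-- polarized Killing equation in the frame -/
theorem GC_polar {P : E4 → M3} (hsa : ∀ x, x ≠ 0 → (S.G x * P x)ᵀ = S.G x * P x)
    (hk : ∀ x, x ≠ 0 → ∀ v, S.g x v (S.nabE P v x *ᵥ v) = 0) {x : E4}
    (hx : x ≠ 0) (hP : DifferentiableAt ℝ P x) (a b c : Fin 3) :
    (S.G x * S.nabE P (ee c) x) a b + (S.G x * S.nabE P (ee a) x) b c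
      + (S.G x * S.nabE P (ee b) x) c a = 0 := by
  set T : V3 → V3 → V3 → ℝ := fun u v w => v ⬝ᵥ ((S.G x * S.nabE P u x) *ᵥ w) with hT
  have hT0 : ∀ v, T v v v = 0 := by
    intro v
    have := hk x hx v
    unfold g bil at this
    rw [hT]
    simp only
    rw [← mulVec_mulVec]
    exact this
  have hTs : ∀ u v w, T u v w = T u w v := by
    intro u v w
    simp only [hT]
    rw [← S.GC_sa hsa hx hP u]
    rw [mulVec_transpose, dotProduct_comm, ← dotProduct_mulVec]
    rw [S.GC_sa hsa hx hP u]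
  have a1 : ∀ u u' v w, T (u + u') v w = T u v w + T u' v w := by
    intro u u' v w
    simp only [hT]
    rw [GC_nabE_add, mul_add, add_mulVec, dotProduct_add]
  have a2 : ∀ u v v' w, T u (v + v') w = T u v w + T u v' w := by
    intro u v v' w
    simp only [hT]
    rw [add_dotProduct]
  have a3 : ∀ u v w w', T u v (w + w') = T u v w + T u v w' := by
    intro u v w w'
    simp only [hT]
    rw [mulVec_add, dotProduct_add]
  have key : ∀ u v w, T u v w + T v w u + T w u v = 0 := by
    intro u v w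
    have e1 := hT0 (u + v + w)
    have e2 := hT0 (u + v)
    have e3 := hT0 (v + w)
    have e4 := hT0 (u + w)
    have e5 := hT0 u
    have e6 := hT0 v
    have e7 := hT0 w
    simp only [a1, a2, a3] at e1 e2 e3 e4
    have s1 := hTs u w v
    have s2 := hTs v u w
    have s3 := hTs w v u
    linarith
  have h := key (ee c) (ee a) (ee b)
  have ent : ∀ (M : M3) (i j : Fin 3), (ee i) ⬝ᵥ (M *ᵥ (ee j)) = M i j := by
    intro M i j
    simp [ee]
  simp only [hT, ent] at h
  exact h

/-- the linear system satisfied by a Killing tensor -/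
theorem GC_system {P : E4 → M3} (hsa : ∀ x, x ≠ 0 → (S.G x * P x)ᵀ = S.G x * P x)
    (hk : ∀ x, x ≠ 0 → ∀ v, S.g x v (S.nabE P v x *ᵥ v) = 0) {x : E4}
    (hx : x ≠ 0) (hP : DifferentiableAt ℝ P x) (a b c : Fin 3) :
    Dv (fun y => (S.G y * P y) a b) (ee c) x + Dv (fun y => (S.G y * P y) b c) (ee a) x
      + Dv (fun y => (S.G y * P y) c a) (ee b) x = ∑ i, ∑ j,
      (((S.Γ c x i a * (if j = b then 1 else 0) + (if i = a then 1 else 0) * S.Γ c x j b)
        + (S.Γ a x i b * (if j = c then 1 else 0) + (if i = b then 1 else 0) * S.Γ a x j c)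
        + (S.Γ b x i c * (if j = a then 1 else 0) + (if i = c then 1 else 0) * S.Γ b x j a))
        * (S.G x * P x) i j) := by
  have hG : DifferentiableAt ℝ S.G x := S.smG.differentiableAt hx
  have hGP : DifferentiableAt ℝ (fun y => S.G y * P y) x := hG.mul hP
  rw [Dv_entry hGP, Dv_entry hGP, Dv_entry hGP]
  rw [S.GC_Dv_lower hx hP, S.GC_Dv_lower hx hP, S.GC_Dv_lower hx hP]
  have hp := S.GC_polar hsa hk hx hP a b c
  simp only [GC_Gam_ee]
  set Q := S.G x * P x with hQ
  simp only [Matrix.add_apply]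
  have e : ∀ (Γm : M3) (r s : Fin 3), (Γmᵀ * Q) r s + (Q * Γm) r s
      = ∑ i, ∑ j, ((Γm i r * (if j = s then 1 else 0) + (if i = r then 1 else 0) * Γm j s) * Q i j) := by
    intro Γm r s
    have e1 : (Γmᵀ * Q) r s = ∑ i, ∑ j, (Γm i r * (if j = s then 1 else 0)) * Q i j := by
      rw [Matrix.mul_apply]
      apply Finset.sum_congr rfl
      intro i _
      rw [Finset.sum_eq_single s]
      · simp [Matrix.transpose_apply]
      · intro j _ hj; simp [hj]
      · simp
    have e2 : (Q * Γm) r s = ∑ i, ∑ j, ((if i = r then 1 else 0) * Γm j s) * Q i j := by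
      rw [Matrix.mul_apply, Finset.sum_eq_single (s := Finset.univ) (a := r)
        (f := fun i => ∑ j, ((if i = r then 1 else 0) * Γm j s) * Q i j)]
      · apply Finset.sum_congr rfl
        intro j _
        simp [mul_comm]
      · intro i _ hi; simp [hi]
      · simp
    rw [e1, e2, ← Finset.sum_add_distrib]
    apply Finset.sum_congr rfl
    intro i _
    rw [← Finset.sum_add_distrib]
    apply Finset.sum_congr rfl
    intro j _
    ring
  have e1 := e (S.Γ c x) a b
  have e2 := e (S.Γ a x) b c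
  have e3 := e (S.Γ b x) c a
  have split : ∀ (f1 f2 f3 : Fin 3 → Fin 3 → ℝ), ∑ i, ∑ j, ((f1 i j + f2 i j + f3 i j) * Q i j)
      = (∑ i, ∑ j, f1 i j * Q i j) + (∑ i, ∑ j, f2 i j * Q i j) + (∑ i, ∑ j, f3 i j * Q i j) := by
    intro f1 f2 f3
    rw [← Finset.sum_add_distrib, ← Finset.sum_add_distrib]
    apply Finset.sum_congr rfl
    intro i _
    rw [← Finset.sum_add_distrib, ← Finset.sum_add_distrib]
    apply Finset.sum_congr rfl
    intro j _
    ring
  rw [split, ← e1, ← e2, ← e3]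
  linarith

/-- unique continuation for self-adjoint Killing tensors -/
theorem GC_uc (P : E4 → M3) (hS : Sm P) (hH : Hom P)
    (hsa : ∀ x, x ≠ 0 → (S.G x * P x)ᵀ = S.G x * P x)
    (hk : ∀ x, x ≠ 0 → ∀ v, S.g x v (S.nabE P v x *ᵥ v) = 0) {p : E4} (hp : p ≠ 0)
    (h0 : P p = 0) (N : Fin 3 → E4 → M3) (hN : ∀ k y, y ≠ 0 → S.nabE P (ee k) y = N k y)
    (hN0 : ∀ k, N k p = 0) (hNd : ∀ k, DifferentiableAt ℝ (N k) p)
    (hN1 : ∀ k l, Dv (N k) (ee l) p = 0) : ∀ x, x ≠ 0 → P x = 0 := by
  have hPd : ∀ x, x ≠ 0 → DifferentiableAt ℝ P x := fun x hx => hS.differentiableAt hx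
  have hGd : ∀ x, x ≠ 0 → DifferentiableAt ℝ S.G x := fun x hx => S.smG.differentiableAt hx
  have hGPc : ∀ x, x ≠ 0 → ContDiffAt ℝ ∞ (fun y => S.G y * P y) x := fun x hx =>
    (S.smG.contDiffAt hx).mul (hS.contDiffAt hx)
  have hent : ∀ (F : E4 → M3), Sm F → ∀ i j, Sm (fun x => F x i j) := by
    intro F hF i j x hx
    exact ((contDiffAt_entries.mp (hF.contDiffAt hx)) i j).contDiffWithinAt
  have hGPs : Sm (fun y => S.G y * P y) := fun x hx => (hGPc x hx).contDiffWithinAt
  have hΓd : ∀ k, DifferentiableAt ℝ (S.Γ k) p := fun k => (S.smΓ k).differentiableAt hp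
  have hGPd : ∀ x, x ≠ 0 → DifferentiableAt ℝ (fun y => S.G y * P y) x := fun x hx =>
    hGPs.differentiableAt hx
  have hQ0 : S.G p * P p = 0 := by rw [h0, mul_zero]
  have hD1 : ∀ k, Dv (fun y => S.G y * P y) (ee k) p = 0 := by
    intro k
    rw [S.GC_Dv_lower hp (hPd p hp), hN k p hp, hN0 k, hQ0]
    simp
  have main := W12_uc (fun y => S.G y * P y) (hent _ hGPs) (by
      intro t ht x
      show S.G (t • x) * P (t • x) = S.G x * P x
      rw [S.homG t ht, hH t ht])
    (by
      intro x hx i j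
      have := congrFun (congrFun (hsa x hx) j) i
      rw [Matrix.transpose_apply] at this
      exact this)
    (fun a b c i j x =>
      ((S.Γ c x i a * (if j = b then 1 else 0) + (if i = a then 1 else 0) * S.Γ c x j b)
        + (S.Γ a x i b * (if j = c then 1 else 0) + (if i = b then 1 else 0) * S.Γ a x j c)
        + (S.Γ b x i c * (if j = a then 1 else 0) + (if i = c then 1 else 0) * S.Γ b x j a)))
    (by
      intro a b c i j
      have hΓ : ∀ k i j, ContDiffOn ℝ ∞ (fun x => S.Γ k x i j) {0}ᶜ := fun k i j => hent _ (S.smΓ k) i j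
      unfold Sm
      exact ((((hΓ c i a).mul contDiffOn_const).add (contDiffOn_const.mul (hΓ c j b))).add
        (((hΓ a i b).mul contDiffOn_const).add (contDiffOn_const.mul (hΓ a j c)))).add
        (((hΓ b i c).mul contDiffOn_const).add (contDiffOn_const.mul (hΓ b j a))))
    (by
      intro x hx a b c
      exact S.GC_system hsa hk hx (hPd x hx) a b c)
    p hp hQ0
    (by
      intro i j k
      rw [Dv_entry (hGPd p hp), hD1 k]
      rfl)
    (by
      intro i j k l
      -- near p the first derivative is explicit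
      have hev : (fun y => Dv (fun z => (S.G z * P z) i j) (ee k) y) =ᶠ[𝓝 p]
          (fun y => ((S.Γ k y)ᵀ * (S.G y * P y) + (S.G y * P y) * S.Γ k y + S.G y * N k y) i j) := by
        filter_upwards [isOpen_ne.mem_nhds hp] with y hy
        rw [Dv_entry (hGPd y hy), S.GC_Dv_lower hy (hPd y hy), hN k y hy, GC_Gam_ee]
      have hstep : Dv (fun y => Dv (fun z => (S.G z * P z) i j) (ee k) y) (ee l) p
          = Dv (fun y => ((S.Γ k y)ᵀ * (S.G y * P y) + (S.G y * P y) * S.Γ k y
              + S.G y * N k y) i j) (ee l) p := by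
        unfold Dv
        unfold Dv at hev
        rw [hev.fderiv_eq]
      rw [hstep]
      have hΓt : DifferentiableAt ℝ (fun y => (S.Γ k y)ᵀ) p := by
        have := contDiffAt_entries.mp ((S.smΓ k).contDiffAt hp)
        have h2 : ContDiffAt ℝ ∞ (fun y => (S.Γ k y)ᵀ) p := by
          rw [contDiffAt_entries]
          intro i j
          exact this j i
        exact h2.differentiableAt (by simp)
      have d1 : DifferentiableAt ℝ (fun y => (S.Γ k y)ᵀ * (S.G y * P y)) p := hΓt.mul (hGPd p hp)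
      have d2 : DifferentiableAt ℝ (fun y => (S.G y * P y) * S.Γ k y) p := (hGPd p hp).mul (hΓd k)
      have d3 : DifferentiableAt ℝ (fun y => S.G y * N k y) p := (hGd p hp).mul (hNd k)
      have d12 : DifferentiableAt ℝ (fun y => (S.Γ k y)ᵀ * (S.G y * P y)
        + (S.G y * P y) * S.Γ k y) p := d1.add d2
      have d123 : DifferentiableAt ℝ (fun y => (S.Γ k y)ᵀ * (S.G y * P y)
        + (S.G y * P y) * S.Γ k y + S.G y * N k y) p := d12.add d3
      rw [Dv_entry d123, Dv_add d12 d3, Dv_add d1 d2, Dv_mul hΓt (hGPd p hp),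
        Dv_mul (hGPd p hp) (hΓd k), Dv_mul (hGd p hp) (hNd k), hD1 l, hN0 k, hN1 k l, hQ0]
      simp)
  intro x hx
  have h1 : S.G x * P x = 0 := main x hx
  have hdet : (S.G x).det ≠ 0 := (S.det_neg x hx).ne
  have h2 : (S.G x)⁻¹ * (S.G x * P x) = P x := by
    rw [← mul_assoc, nonsing_inv_mul _ (by rwa [isUnit_iff_ne_zero]), one_mul]
  rw [← h2, h1, mul_zero]

/-! ### covariant derivatives of the auxiliary fields -/

theorem GC_crossM_conj (Γm A B : M3) :
    Γm * crossM A B - crossM A B * Γm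
      = crossM (Γm * A - A * Γm) B + crossM A (Γm * B - B * Γm) := by
  have t1 : (Γm * A - A * Γm).trace = 0 := by
    rw [trace_sub, trace_mul_comm, sub_self]
  have t2 : (Γm * B - B * Γm).trace = 0 := by
    rw [trace_sub, trace_mul_comm, sub_self]
  have t3 : ((Γm * A - A * Γm) * B).trace + (A * (Γm * B - B * Γm)).trace = 0 := by
    rw [← trace_add]
    have e : (Γm * A - A * Γm) * B + A * (Γm * B - B * Γm) = Γm * (A * B) - (A * B) * Γm := by
      noncomm_ring
    rw [e, trace_sub, trace_mul_comm, sub_self]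
  unfold crossM
  rw [t1, t2]
  have t4 : (A * (Γm * B - B * Γm)).trace = -((Γm * A - A * Γm) * B).trace := by linarith
  rw [t4]
  simp only [zero_mul, mul_zero, zero_smul, zero_sub, sub_zero, neg_smul, neg_neg]
  simp only [mul_add, add_mul, mul_sub, sub_mul, mul_smul_comm, smul_mul_assoc, mul_one, one_mul,
    smul_sub, mul_assoc]
  abel

theorem GC_nabE_crossM {A B : E4 → M3} {x : E4} (hA : DifferentiableAt ℝ A x)
    (hB : DifferentiableAt ℝ B x) (v : V3) :
    S.nabE (fun y => crossM (A y) (B y)) v x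
      = crossM (S.nabE A v x) (B x) + crossM (A x) (S.nabE B v x) := by
  have h1 : Dv (fun y => crossM (A y) (B y)) v x
      = crossM (Dv A v x) (B x) + crossM (A x) (Dv B v x) :=
    ((B0b_H_of hA).bilin B0b_bil_crossM (B0b_H_of hB)).eq
  unfold nabE
  rw [h1, GC_crossM_conj]
  have a1 : crossM (Dv A v x + (S.Gam v x * A x - A x * S.Gam v x)) (B x)
      = crossM (Dv A v x) (B x) + crossM (S.Gam v x * A x - A x * S.Gam v x) (B x) :=
    B0b_bil_crossM.add_left (Dv A v x) (S.Gam v x * A x - A x * S.Gam v x) (B x)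
  have a2 : crossM (A x) (Dv B v x + (S.Gam v x * B x - B x * S.Gam v x))
      = crossM (A x) (Dv B v x) + crossM (A x) (S.Gam v x * B x - B x * S.Gam v x) :=
    B0b_bil_crossM.add_right (A x) (Dv B v x) (S.Gam v x * B x - B x * S.Gam v x)
  rw [a1, a2]
  abel

theorem GC_diff_G {x : E4} (hx : x ≠ 0) : DifferentiableAt ℝ S.G x := S.smG.differentiableAt hx

theorem GC_diff_lam {x : E4} (hx : x ≠ 0) : DifferentiableAt ℝ S.lam x :=
  S.smlam.differentiableAt hx

theorem GC_diff_od {x : E4} (hx : x ≠ 0) (u : V3) :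
    DifferentiableAt ℝ (fun y => S.od y u (S.lam y)) x := by
  unfold od odot
  have h1 : DifferentiableAt ℝ (fun y => S.G y *ᵥ S.lam y) x :=
    ((B0b_H_of (v := u) (S.GC_diff_G hx)).bilin B0b_bil_mulVec
      (B0b_H_of (S.GC_diff_lam hx))).diff
  have h2 : DifferentiableAt ℝ (fun y => S.G y *ᵥ u) x :=
    ((B0b_H_of (v := u) (S.GC_diff_G hx)).bilin B0b_bil_mulVec
      (B0b_H_of (differentiableAt_const u))).diff
  have h3 : DifferentiableAt ℝ (fun y => vecMulVec u (S.G y *ᵥ S.lam y)) x :=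
    ((B0b_H_of (v := u) (differentiableAt_const u)).bilin B0b_bil_vecMulVec (B0b_H_of h1)).diff
  have h4 : DifferentiableAt ℝ (fun y => vecMulVec (S.lam y) (S.G y *ᵥ u)) x :=
    ((B0b_H_of (v := u) (S.GC_diff_lam hx)).bilin B0b_bil_vecMulVec (B0b_H_of h2)).diff
  exact h3.add h4

theorem GC_nabE_od {x : E4} (hx : x ≠ 0) (u v : V3) :
    S.nabE (fun y => S.od y u (S.lam y)) v x
      = S.od x (S.nab (fun _ => u) v x) (S.lam x) + S.od x u (S.nab S.lam v x) := by
  have hc : DifferentiableAt ℝ (fun _ : E4 => u) x := differentiableAt_const u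
  have hl := S.GC_diff_lam hx
  have h1 : DifferentiableAt ℝ (fun y => S.G y *ᵥ S.lam y) x :=
    ((B0b_H_of (v := u) (S.GC_diff_G hx)).bilin B0b_bil_mulVec (B0b_H_of hl)).diff
  have h2 : DifferentiableAt ℝ (fun y => S.G y *ᵥ u) x :=
    ((B0b_H_of (v := u) (S.GC_diff_G hx)).bilin B0b_bil_mulVec (B0b_H_of hc)).diff
  have h3 : DifferentiableAt ℝ (fun y => vecMulVec u (S.G y *ᵥ S.lam y)) x :=
    ((B0b_H_of (v := u) hc).bilin B0b_bil_vecMulVec (B0b_H_of h1)).diff
  have h4 : DifferentiableAt ℝ (fun y => vecMulVec (S.lam y) (S.G y *ᵥ u)) x :=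
    ((B0b_H_of (v := u) hl).bilin B0b_bil_vecMulVec (B0b_H_of h2)).diff
  have d1 := S.nabE_dyad hx hc hl v
  have d2 := S.nabE_dyad hx hl hc v
  have e : S.nabE (fun y => S.od y u (S.lam y)) v x
      = S.nabE (fun y => vecMulVec u (S.G y *ᵥ S.lam y)) v x
        + S.nabE (fun y => vecMulVec (S.lam y) (S.G y *ᵥ u)) v x := by
    unfold nabE od odot
    rw [Dv_add h3 h4]
    noncomm_ring
  rw [e, d1, d2]
  unfold od odot
  abel

theorem GC_nabE_shift (c : ℝ) {x : E4} (hx : x ≠ 0) (v : V3) :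
    S.nabE (fun y => S.L y - c • (1 : M3)) v x = S.od x v (S.lam x) := by
  rw [← S.main_v hx v]
  have hL : DifferentiableAt ℝ S.L x := S.smL.differentiableAt hx
  unfold nabE
  rw [Dv_sub hL (differentiableAt_const _), Dv_const, sub_zero]
  simp only [mul_sub, sub_mul, mul_smul_comm, smul_mul_assoc, mul_one, one_mul]
  abel

/-- at a zero of the field the covariant derivative is the derivative -/
theorem GC_Dv_of_zero {N : E4 → M3} {x : E4} (h : N x = 0) (v : V3) :
    Dv N v x = S.nabE N v x := by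
  unfold nabE
  rw [h]
  simp

theorem UC_K (c : ℝ) {p : E4} (hp : p ≠ 0) (h0 : S.K c p = 0)
    (h1 : ∀ v, crossM (S.L p - c • (1 : M3)) (S.od p v (S.lam p)) = 0)
    (h2 : ∀ v w, crossM (S.od p w (S.lam p)) (S.od p v (S.lam p))
      + crossM (S.L p - c • (1 : M3)) (S.od p v (S.Lam p *ᵥ w)) = 0) :
    ∀ x, x ≠ 0 → S.K c x = 0 := by
  have hLd : ∀ x, x ≠ 0 → DifferentiableAt ℝ (fun y => S.L y - c • (1 : M3)) x := by
    intro x hx
    exact (S.smL.differentiableAt hx).sub (differentiableAt_const _)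
  have hNd : ∀ k : Fin 3, DifferentiableAt ℝ
      (fun y => crossM (S.L y - c • (1 : M3)) (S.od y (ee k) (S.lam y))) p := by
    intro k
    exact ((B0b_H_of (v := ee k) (hLd p hp)).bilin B0b_bil_crossM
      (B0b_H_of (S.GC_diff_od hp (ee k)))).diff
  refine S.GC_uc (S.K c) (S.sm_K c) (S.hom_K c) ?_ (fun x hx v => S.K_killing c hx v) hp h0
    (fun k y => crossM (S.L y - c • (1 : M3)) (S.od y (ee k) (S.lam y)))
    (fun k y hy => S.nabE_K c hy (ee k)) (fun k => h1 (ee k)) hNd ?_
  · intro x hx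
    ext i j
    have hg := S.g_K c hx (ee i) (ee j)
    have hsym := S.symm x hx
    unfold g bil at hg
    have e1 : (S.K c x *ᵥ ee i) ⬝ᵥ (S.G x *ᵥ ee j) = ((S.G x * S.K c x)ᵀ) i j := by
      rw [transpose_mul, hsym, Matrix.mul_apply]
      simp [ee, dotProduct, Matrix.transpose_apply]
    have e2 : (ee i) ⬝ᵥ (S.G x *ᵥ (S.K c x *ᵥ ee j)) = (S.G x * S.K c x) i j := by
      rw [mulVec_mulVec]
      simp [ee]
    rw [← e1, ← e2]
    exact hg
  · intro k l
    rw [S.GC_Dv_of_zero (h1 (ee k))]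
    rw [S.GC_nabE_crossM (hLd p hp) (S.GC_diff_od hp (ee k)), S.GC_nabE_shift c hp,
      S.GC_nabE_od hp, ← S.Lam_mulVec]
    have a2 : crossM (S.L p - c • (1 : M3))
        (S.od p (S.nab (fun _ => ee k) (ee l) p) (S.lam p) + S.od p (ee k) (S.Lam p *ᵥ ee l))
        = crossM (S.L p - c • (1 : M3)) (S.od p (S.nab (fun _ => ee k) (ee l) p) (S.lam p))
          + crossM (S.L p - c • (1 : M3)) (S.od p (ee k) (S.Lam p *ᵥ ee l)) :=
      B0b_bil_crossM.add_right _ _ _
    rw [a2, h1 (S.nab (fun _ => ee k) (ee l) p), zero_add]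
    exact h2 (ee k) (ee l)

theorem UC_L (c : ℝ) {p : E4} (hp : p ≠ 0) (h0 : S.L p = c • (1 : M3)) (h1 : S.lam p = 0)
    (h2 : S.Lam p = 0) : ∀ x, x ≠ 0 → S.L x = c • (1 : M3) := by
  have hLd : ∀ x, x ≠ 0 → DifferentiableAt ℝ S.L x := fun x hx => S.smL.differentiableAt hx
  have htd : ∀ x, x ≠ 0 → DifferentiableAt ℝ (fun y => (S.L y).trace) x := fun x hx =>
    ((B0b_H_of (v := ee 0) (hLd x hx)).lin (Matrix.traceLinearMap (Fin 3) ℝ ℝ)).diff
  have ht1 : ∀ x, x ≠ 0 → DifferentiableAt ℝ (fun y => (S.L y).trace • (1 : M3)) x := fun x hx =>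
    (htd x hx).smul_const (1 : M3)
  set P : E4 → M3 := fun y => S.L y - (S.L y).trace • (1 : M3) + (2 * c) • (1 : M3) with hP
  have hnab : ∀ x, x ≠ 0 → ∀ v, S.nabE P v x
      = S.od x v (S.lam x) - (2 * S.g x (S.lam x) v) • (1 : M3) := by
    intro x hx v
    have hsub : DifferentiableAt ℝ (fun y => S.L y - (S.L y).trace • (1 : M3)) x :=
      (hLd x hx).sub (ht1 x hx)
    rw [← S.main_v hx v, ← S.Dv_trL hx v]
    unfold nabE
    rw [hP]
    rw [Dv_add hsub (differentiableAt_const _),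
      Dv_sub (hLd x hx) (ht1 x hx), Dv_const, Dv_smul (htd x hx) (differentiableAt_const _), Dv_const]
    simp only [mul_add, add_mul, mul_sub, sub_mul, mul_smul_comm, smul_mul_assoc, mul_one, one_mul,
      smul_zero, add_zero]
    abel
  have hDlam : ∀ l, Dv S.lam (ee l) p = 0 := by
    intro l
    have h := S.Lam_mulVec p (ee l)
    rw [h2] at h
    unfold nab at h
    rw [h1] at h
    simpa using h.symm
  have hlam := S.GC_diff_lam hp
  have hG := S.GC_diff_G hp
  have hgd : ∀ k, DifferentiableAt ℝ (fun y => S.g y (S.lam y) (ee k)) p := by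
    intro k
    unfold g bil
    have h3 : DifferentiableAt ℝ (fun y => S.G y *ᵥ ee k) p :=
      ((B0b_H_of (v := ee k) hG).bilin B0b_bil_mulVec (B0b_H_of (differentiableAt_const _))).diff
    exact ((B0b_H_of (v := ee k) hlam).bilin B0b_bil_dotProduct (B0b_H_of h3)).diff
  have main := S.GC_uc P ?_ ?_ ?_ ?_ hp ?_
    (fun k y => S.od y (ee k) (S.lam y) - (2 * S.g y (S.lam y) (ee k)) • (1 : M3))
    (fun k y hy => hnab y hy (ee k)) ?_ ?_ ?_
  · -- conclusion
    intro x hx
    have h3 := main x hx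
    simp only [hP] at h3
    have h4 := congrArg Matrix.trace h3
    rw [trace_add, trace_sub, trace_smul, trace_smul, trace_one, trace_zero] at h4
    simp only [Fintype.card_fin, smul_eq_mul, Nat.cast_ofNat] at h4
    have h5 : (S.L x).trace = 3 * c := by linarith
    rw [h5] at h3
    have h6 : S.L x = (3 * c) • (1 : M3) - (2 * c) • (1 : M3) := by
      rw [sub_add_eq_add_sub, sub_eq_zero] at h3
      rw [← h3]
      abel
    rw [h6, ← sub_smul]
    congr 1
    ring
  · -- smooth
    intro x hx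
    have hL := S.smL.contDiffAt hx
    have ht : ContDiffAt ℝ ∞ (fun y => (S.L y).trace) x := contDiffAt_trace hL
    exact ((hL.sub (ht.smul contDiffAt_const)).add contDiffAt_const).contDiffWithinAt
  · -- homogeneous
    intro t ht x
    show S.L (t • x) - (S.L (t • x)).trace • (1 : M3) + (2 * c) • (1 : M3) = _
    rw [S.homL t ht]
  · -- self-adjoint
    intro x hx
    have hs := S.selfadj x hx
    have hsym := S.symm x hx
    simp only [hP]
    rw [mul_add, mul_sub, mul_smul_comm, mul_smul_comm, mul_one, transpose_add, transpose_sub,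
      transpose_smul, transpose_smul, hs, hsym]
  · -- Killing
    intro x hx v
    rw [hnab x hx v, sub_mulVec, smul_mulVec, one_mulVec]
    have e : S.g x v (S.od x v (S.lam x) *ᵥ v - (2 * S.g x (S.lam x) v) • v)
        = S.g x v (S.od x v (S.lam x) *ᵥ v) - (2 * S.g x (S.lam x) v) * S.g x v v := by
      unfold g bil
      rw [mulVec_sub, dotProduct_sub, mulVec_smul, dotProduct_smul, smul_eq_mul]
    rw [e, S.g_od hx]
    ring
  · -- zero at p
    simp only [hP]
    rw [h0, trace_smul, trace_one]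
    simp only [Fintype.card_fin, smul_eq_mul, Nat.cast_ofNat]
    rw [← sub_smul, ← add_smul]
    have : c - c * 3 + 2 * c = 0 := by ring
    rw [this, zero_smul]
  · -- N zero at p
    intro k
    simp only [h1]
    unfold od odot g bil
    simp
  · intro k
    exact (S.GC_diff_od hp (ee k)).sub (((hgd k).const_mul 2).smul_const (1 : M3))
  · intro k l
    have hGk : DifferentiableAt ℝ (fun y => S.G y *ᵥ ee k) p :=
      ((B0b_H_of (v := ee k) hG).bilin B0b_bil_mulVec (B0b_H_of (differentiableAt_const _))).diff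
    have b1 : B0b_H (ee l) p (fun y => S.G y *ᵥ S.lam y) 0 := by
      refine ((B0b_H_of (v := ee l) hG).bilin B0b_bil_mulVec (B0b_H_of hlam)).congr ?_
      rw [hDlam l, h1]
      simp
    have b2 : B0b_H (ee l) p (fun y => vecMulVec (ee k) (S.G y *ᵥ S.lam y)) 0 := by
      refine ((B0b_H_of (v := ee l) (differentiableAt_const (ee k))).bilin B0b_bil_vecMulVec b1).congr ?_
      rw [Dv_const, h1]
      simp
    have b3 : B0b_H (ee l) p (fun y => vecMulVec (S.lam y) (S.G y *ᵥ ee k)) 0 := by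
      refine ((B0b_H_of (v := ee l) hlam).bilin B0b_bil_vecMulVec (B0b_H_of hGk)).congr ?_
      rw [hDlam l, h1]
      simp
    have b4 : B0b_H (ee l) p (fun y => S.lam y ⬝ᵥ (S.G y *ᵥ ee k)) 0 := by
      refine ((B0b_H_of (v := ee l) hlam).bilin B0b_bil_dotProduct (B0b_H_of hGk)).congr ?_
      rw [hDlam l, h1]
      simp
    have b5 : B0b_H (ee l) p (fun y => (2 * S.g y (S.lam y) (ee k)) • (1 : M3)) 0 := by
      have h5 : B0b_H (ee l) p
          (fun y => (LinearMap.toSpanSingleton ℝ M3 ((2 : ℝ) • (1 : M3))) (S.lam y ⬝ᵥ (S.G y *ᵥ ee k)))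
          ((LinearMap.toSpanSingleton ℝ M3 ((2 : ℝ) • (1 : M3))) 0) := b4.lin _
      have e5 : (fun y => (2 * S.g y (S.lam y) (ee k)) • (1 : M3))
          = (fun y => (LinearMap.toSpanSingleton ℝ M3 ((2 : ℝ) • (1 : M3)))
              (S.lam y ⬝ᵥ (S.G y *ᵥ ee k))) := by
        funext y
        rw [LinearMap.toSpanSingleton_apply, smul_smul]
        unfold g bil
        rw [mul_comm]
      rw [e5]
      exact h5.congr (map_zero _)
    have b6 : B0b_H (ee l) p (fun y => S.od y (ee k) (S.lam y)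
        - (2 * S.g y (S.lam y) (ee k)) • (1 : M3)) 0 := by
      have := (b2.add b3).sub b5
      refine B0b_H.congr this ?_
      simp
    exact b6.eq

end Geo

end Pool.Agent.helper68.B2
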