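import Pool.Agent.helper68.B2.Defs3
import Pool.Agent.helper98.B2.B0b
import Pool.Agent.helper31.B2.B0a
import Pool.Agent.helper98.B2.GA
import Pool.Agent.helper80.B2.W1
import Pool.Agent.helper71.B2.FI1
import Pool.Agent.helper71.B2.FI2
import Pool.Agent.helper71.B2.FI3
import Pool.Agent.helper51.B2.FI4

/-!
B2 project (MP_b2b189_gt), module FI5: the final contradiction.
-/

set_option autoImplicit false

namespace Pool.Agent.helper68.B2

open scoped ContDiff Topology Matrix
open Matrix Set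

variable {S : Geo}

namespace FinData
variable (D : FinData S)

/-- local existence -/
theorem FI5_local {x : E4} (hx : x ≠ 0) :
    ∃ (W : Set E4) (A : E4 → V3), IsOpen W ∧ x ∈ W ∧ ContDiffOn ℝ ∞ A W ∧
      ∀ y ∈ W, D.IsTh y (A y) ∧ ClosedF (fun u => S.G u *ᵥ A u) y := by
  by_cases h3 : (S.L x - D.c x • (1 : M3)) ^ 3 = 0
  · exact D.fin_triple hx h3
  · by_cases h : (S.L x - D.c x • (1 : M3)).adjugate.trace = 0
    · exact D.fin_double hx h h3
    · exact D.fin_simple hx h

/-- FI5 -/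
theorem fin_false {S : Geo} (D : FinData S) : False := by
  classical
  set Θ : E4 → V3 := fun x => if h : ∃ A, D.IsTh x A then h.choose else 0 with hΘ
  have hTh : ∀ x, x ≠ 0 → D.IsTh x (Θ x) := by
    intro x hx
    obtain ⟨W, A, hW, hxW, hA, hAW⟩ := D.FI5_local hx
    have h : ∃ A, D.IsTh x A := ⟨A x, (hAW x hxW).1⟩
    simp only [hΘ]
    rw [dif_pos h]
    exact h.choose_spec
  have hhom : Hom Θ := by
    intro t ht x
    by_cases hx : x = 0
    · rw [hx, smul_zero]
    · have htx : t • x ≠ 0 := smul_ne_zero ht.ne' hx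
      exact D.fin_unique htx (hTh _ htx) (D.fin_hom hx (hTh x hx) ht)
  set α : E4 → V3 := fun x => S.G x *ᵥ Θ x with hα
  have hαhom : Hom α := by
    intro t ht x
    simp only [hα]
    rw [hhom t ht, S.homG t ht]
  have hloc : ∀ x, x ≠ 0 → ∃ A : E4 → V3, ContDiffAt ℝ ∞ A x ∧
      ClosedF (fun u => S.G u *ᵥ A u) x ∧ α =ᶠ[𝓝 x] (fun u => S.G u *ᵥ A u) := by
    intro x hx
    obtain ⟨W, A, hW, hxW, hA, hAW⟩ := D.FI5_local hx
    refine ⟨A, hA.contDiffAt (hW.mem_nhds hxW), (hAW x hxW).2, ?_⟩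
    filter_upwards [hW.mem_nhds hxW, isOpen_ne.mem_nhds hx] with y hy hy0
    simp only [hα]
    rw [D.fin_unique hy0 (hTh y hy0) (hAW y hy).1]
  refine W1_contra α ?_ ?_ ?_ ?_
  · intro x hx
    obtain ⟨A, hA, _, he⟩ := hloc x hx
    have h1 : ContDiffAt ℝ ∞ (fun u => S.G u *ᵥ A u) x :=
      contDiffAt_mulVec (S.smG.contDiffAt hx) hA
    exact (h1.congr_of_eventuallyEq he).of_le (by simp)
  · intro x hx
    exact hαhom.radial hx
  · intro x hx i j
    obtain ⟨A, hA, hc, he⟩ := hloc x hx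
    have h1 := hc i j
    have e1 : ∀ k l : Fin 3, Dv (fun y => α y k) (ee l) x
        = Dv (fun y => (S.G y *ᵥ A y) k) (ee l) x := by
      intro k l
      apply B0b_Dv_congr
      filter_upwards [he] with y hy
      rw [hy]
    rw [e1, e1, he.eq_of_nhds]
    exact h1
  · intro x hx h0
    have h1 := D.fin_pair hx (hTh x hx)
    rw [S.g_symm hx] at h1
    unfold Geo.g bil at h1
    have h2 : S.G x *ᵥ Θ x = 0 := h0
    rw [h2, dotProduct_zero] at h1
    exact zero_ne_one h1

end FinData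

end Pool.Agent.helper68.B2
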