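import Pool.Agent.helper68.B2.Defs3
import Pool.Agent.helper98.B2.B0b
import Pool.Agent.helper31.B2.B0a
import Pool.Agent.helper98.B2.GA
import Pool.Agent.helper30.B2.LA1
import Pool.Agent.helper30.B2.LA2
import Pool.Agent.helper58.B2.W2

/-!
B2 project (MP_b2b189_gt), module FI6: construction of the final data.
-/

set_option autoImplicit false

namespace Pool.Agent.helper68.B2

open scoped ContDiff Topology Matrix
open Matrix Set

variable {S : Geo}

theorem FI6_Lor {x : E4} (hx : x ≠ 0) : Lor (S.G x) :=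
  ⟨S.symm x hx, S.det_neg x hx, S.pos x hx⟩

theorem FI6_SA (t : ℝ) {x : E4} (hx : x ≠ 0) : SA (S.G x) (S.L x - t • (1 : M3)) := by
  unfold SA
  rw [mul_sub, mul_smul_comm, mul_one, transpose_sub, transpose_smul, S.selfadj x hx, S.symm x hx]

theorem FI6_contL : ContinuousOn S.L {0}ᶜ := S.smL.continuousOn

theorem FI6_contG : ContinuousOn S.G {0}ᶜ := S.smG.continuousOn

theorem FI6_contGinv : ContinuousOn (fun x => (S.G x)⁻¹) {0}ᶜ := by
  intro x hx
  have h1 : ContDiffAt ℝ ∞ (fun y => (S.G y)⁻¹) x :=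
    contDiffAt_inv (S.smG.contDiffAt hx) (S.det_neg x hx).ne
  exact h1.continuousAt.continuousWithinAt

/-- joint continuity of the Killing tensors -/
theorem FI6_Ku_cont {X : Type*} [TopologicalSpace X] {f : X → E4} {t : X → ℝ} {U : Set X}
    (hf : ContinuousOn f U) (h0 : ∀ x ∈ U, f x ≠ 0) (ht : ContinuousOn t U) :
    ContinuousOn (fun x => S.Ku (t x) (f x)) U := by
  have h1 : ContinuousOn (fun x => S.L (f x)) U := FI6_contL.comp hf h0
  have h2 : ContinuousOn (fun x => (S.G (f x))⁻¹) U := FI6_contGinv.comp hf h0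
  have h3 : ContinuousOn (fun x => S.L (f x) - t x • (1 : M3)) U :=
    h1.sub (ht.smul continuousOn_const)
  have h4 : ContinuousOn (fun x => (S.L (f x) - t x • (1 : M3)).adjugate) U := by
    have hc : Continuous (fun A : M3 => A.adjugate) := continuous_id.matrix_adjugate
    exact hc.comp_continuousOn h3
  exact h4.mul h2

theorem FI6_Ku_hom (t : ℝ) {r : ℝ} (hr : 0 < r) (x : E4) : S.Ku t (r • x) = S.Ku t x := by
  unfold Geo.Ku Geo.K
  rw [S.homL r hr, S.homG r hr]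

/-- the smooth cutoff -/
theorem FI6_cutoff {ε : ℝ} (hε : 0 < ε) : ∃ a : ℝ → ℝ, ContDiff ℝ ∞ a ∧
    (∀ t : ℝ, |t| ≤ ε / 4 → a t = 1) ∧ (∀ t : ℝ, ε / 2 ≤ |t| → a t = 0) := by
  refine ⟨fun t => Real.smoothTransition ((ε ^ 2 / 4 - t ^ 2) / (ε ^ 2 / 4 - ε ^ 2 / 16)), ?_, ?_, ?_⟩
  · exact Real.smoothTransition.contDiff.comp
      ((contDiff_const.sub (contDiff_id.pow 2)).div_const _)
  · intro t ht
    apply Real.smoothTransition.one_of_one_le
    have hd : 0 < ε ^ 2 / 4 - ε ^ 2 / 16 := by nlinarith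
    rw [le_div_iff₀ hd, one_mul]
    have : t ^ 2 ≤ ε ^ 2 / 16 := by
      rw [← sq_abs]
      have := abs_nonneg t
      nlinarith
    linarith
  · intro t ht
    apply Real.smoothTransition.zero_of_nonpos
    have hd : 0 < ε ^ 2 / 4 - ε ^ 2 / 16 := by nlinarith
    apply div_nonpos_of_nonpos_of_nonneg _ hd.le
    have : ε ^ 2 / 4 ≤ t ^ 2 := by
      rw [← sq_abs t]
      nlinarith
    linarith

/-- FI6: construction of the final data -/
theorem mk_FinData (c : E4 → ℝ) (hc : ContinuousOn c {0}ᶜ) (hH : Hom c)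
    (hreal : ∀ x, x ≠ 0 → ∃ r₁ r₂ : ℝ, RR3 (S.L x) (c x) r₁ r₂)
    (hadj : ∀ x, x ≠ 0 → (S.L x - c x • (1 : M3)).adjugate ≠ 0)
    (hloc : ∀ x, x ≠ 0 → (S.L x - c x • (1 : M3)) ^ 3 ≠ 0 → ∀ᶠ y in 𝓝 x, c y = c x)
    {ε₀ : ℝ} (hε₀ : 0 < ε₀)
    (hsep : ∀ x, x ≠ 0 → ∀ r : ℝ, (S.L x - r • (1 : M3)).det = 0 →
      (S.L x - r • (1 : M3)).adjugate.trace = 0 → r ≠ c x → ε₀ ≤ |r - c x|) :
    Nonempty (FinData S) := by
  -- the determinant vanishes at `c`
  have hdet : ∀ x, x ≠ 0 → (S.L x - c x • (1 : M3)).det = 0 := by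
    intro x hx
    obtain ⟨r₁, r₂, h⟩ := hreal x hx
    have h1 := h (c x)
    rw [sub_self, zero_mul, zero_mul] at h1
    have h2 : S.L x - c x • (1 : M3) = -(c x • (1 : M3) - S.L x) := by abel
    rw [h2, det_neg, h1, mul_zero]
  obtain ⟨s, hs, Z, hZc, hZH, hZ⟩ := W2_root (fun x => S.Ku (c x) x)
    (FI6_Ku_cont continuousOn_id (fun x hx => hx) hc)
    (by
      intro r hr x
      show S.Ku (c (r • x)) (r • x) = S.Ku (c x) x
      rw [hH r hr, FI6_Ku_hom _ hr])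
    (by
      intro x hx
      obtain ⟨s, w, hs, h1, h2, _, _⟩ := LA_adj_root (FI6_Lor hx) (FI6_SA (c x) hx) (hdet x hx)
      refine ⟨w, ?_, s, hs, h1⟩
      intro hw
      apply hadj x hx
      rw [h2, hw]
      simp)
  -- the alignment function
  set F : E4 × ℝ → ℝ := fun q => s * (Z q.1 ⬝ᵥ (S.Ku (c q.1 + q.2) q.1 *ᵥ Z q.1)) with hF
  have hss : s * s = 1 := by rcases hs with h | h <;> rw [h] <;> norm_num
  have hF0 : ∀ x, x ≠ 0 → 0 < F (x, 0) := by
    intro x hx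
    simp only [hF, add_zero]
    rw [(hZ x hx).2, smul_mulVec, dotProduct_smul, smul_eq_mul, ← mul_assoc, hss, one_mul]
    have e : Z x ⬝ᵥ (vecMulVec (Z x) (Z x) *ᵥ Z x) = (Z x ⬝ᵥ Z x) ^ 2 := by
      rw [vecMulVec_mulVec]
      simp [dotProduct_smul, sq]
    rw [e]
    have h0 : Z x ⬝ᵥ Z x ≠ 0 := by
      intro h
      exact (hZ x hx).1 (dotProduct_self_eq_zero.mp h)
    positivity
  have hFc : ContinuousOn F ({0}ᶜ ×ˢ univ) := by
    have h1 : ContinuousOn (fun q : E4 × ℝ => Z q.1) ({0}ᶜ ×ˢ univ) :=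
      hZc.comp continuousOn_fst (fun q hq => hq.1)
    have h2 : ContinuousOn (fun q : E4 × ℝ => c q.1 + q.2) ({0}ᶜ ×ˢ univ) :=
      (hc.comp continuousOn_fst (fun q hq => hq.1)).add continuousOn_snd
    have h3 : ContinuousOn (fun q : E4 × ℝ => S.Ku (c q.1 + q.2) q.1) ({0}ᶜ ×ˢ univ) :=
      FI6_Ku_cont continuousOn_fst (fun q hq => hq.1) h2
    have h4 : ContinuousOn (fun q : E4 × ℝ => S.Ku (c q.1 + q.2) q.1 *ᵥ Z q.1) ({0}ᶜ ×ˢ univ) := by
      have hm : Continuous (fun p : M3 × V3 => p.1 *ᵥ p.2) :=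
        continuous_fst.matrix_mulVec continuous_snd
      exact hm.comp_continuousOn (h3.prodMk h1)
    have h5 : ContinuousOn (fun q : E4 × ℝ => Z q.1 ⬝ᵥ (S.Ku (c q.1 + q.2) q.1 *ᵥ Z q.1))
        ({0}ᶜ ×ˢ univ) := by
      have hm : Continuous (fun p : V3 × V3 => p.1 ⬝ᵥ p.2) :=
        continuous_fst.dotProduct continuous_snd
      exact hm.comp_continuousOn (h1.prodMk h4)
    exact continuousOn_const.mul h5
  -- compactness
  have hcompact : IsCompact ((Metric.sphere (0 : E4) 1) ×ˢ (Icc (-1 : ℝ) 1)) :=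
    (isCompact_sphere _ _).prod isCompact_Icc
  have hsub : ((Metric.sphere (0 : E4) 1) ×ˢ (Icc (-1 : ℝ) 1)) ⊆ ({0}ᶜ ×ˢ (univ : Set ℝ)) := by
    rintro ⟨x, t⟩ ⟨hx, _⟩
    refine ⟨?_, mem_univ _⟩
    simp only [mem_compl_iff, mem_singleton_iff]
    intro h0
    have hx' : x ∈ Metric.sphere (0 : E4) 1 := hx
    have h0' : x = 0 := h0
    rw [h0', mem_sphere_zero_iff_norm, norm_zero] at hx'
    norm_num at hx'
  set K1 : Set (E4 × ℝ) := ((Metric.sphere (0 : E4) 1) ×ˢ (Icc (-1 : ℝ) 1)) ∩ F ⁻¹' (Iic 0) with hK1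
  have hK1c : IsCompact K1 := by
    apply hcompact.of_isClosed_subset _ inter_subset_left
    exact (hFc.mono hsub).preimage_isClosed_of_isClosed hcompact.isClosed isClosed_Iic
  obtain ⟨ε₁, hε₁, hε₁K⟩ : ∃ ε₁ : ℝ, 0 < ε₁ ∧ ∀ q ∈ K1, ε₁ ≤ |q.2| := by
    rcases K1.eq_empty_or_nonempty with h | h
    · refine ⟨1, one_pos, ?_⟩
      intro q hq
      rw [h] at hq
      exact absurd hq (notMem_empty q)
    · obtain ⟨q₀, hq₀, hmin⟩ := hK1c.exists_isMinOn h
        (continuous_snd.abs.continuousOn (s := K1) (f := fun q : E4 × ℝ => |q.2|))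
      refine ⟨|q₀.2|, ?_, fun q hq => hmin hq⟩
      rw [abs_pos]
      intro h0
      have hq0 : q₀.1 ≠ 0 := (hsub hq₀.1).1
      have h1 := hF0 q₀.1 hq0
      have h2 : F q₀ ≤ 0 := hq₀.2
      have h3 : (q₀.1, (0 : ℝ)) = q₀ := by
        rw [← h0]
      rw [h3] at h1
      linarith
  have halign : ∀ x, x ≠ 0 → ∀ t : ℝ, |t - c x| < min ε₀ (min ε₁ 1) →
      0 < s * (Z x ⬝ᵥ (S.Ku t x *ᵥ Z x)) := by
    intro x hx t ht
    have ht1 : |t - c x| < ε₁ := lt_of_lt_of_le ht ((min_le_right _ _).trans (min_le_left _ _))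
    have ht2 : |t - c x| < 1 := lt_of_lt_of_le ht ((min_le_right _ _).trans (min_le_right _ _))
    have hn : 0 < ‖x‖⁻¹ := inv_pos.mpr (norm_pos_iff.mpr hx)
    by_contra hneg
    push Not at hneg
    have hmem : ((‖x‖⁻¹ • x, t - c x) : E4 × ℝ) ∈ K1 := by
      refine ⟨⟨?_, ?_⟩, ?_⟩
      · show ‖x‖⁻¹ • x ∈ Metric.sphere (0 : E4) 1
        rw [mem_sphere_zero_iff_norm, norm_smul, norm_inv, norm_norm,
          inv_mul_cancel₀ (norm_ne_zero_iff.mpr hx)]
      · show t - c x ∈ Icc (-1 : ℝ) 1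
        exact ⟨(abs_lt.mp ht2).1.le, (abs_lt.mp ht2).2.le⟩
      · show F (‖x‖⁻¹ • x, t - c x) ≤ 0
        simp only [hF]
        rw [hZH _ hn, hH _ hn, FI6_Ku_hom _ hn, add_sub_cancel]
        exact hneg
    have := hε₁K _ hmem
    simp only at this
    linarith
  have hε : 0 < min ε₀ (min ε₁ 1) := lt_min hε₀ (lt_min hε₁ one_pos)
  obtain ⟨a, ha, ha1, ha0⟩ := FI6_cutoff hε
  exact ⟨{
    c := c
    Z := Z
    s := s
    ε := min ε₀ (min ε₁ 1)
    a := a
    cc := hc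
    hc := hH
    cZ := hZc
    hZ := hZH
    hs := hs
    real := hreal
    root := hZ
    loc := hloc
    hε := hε
    sep := fun x hx r h1 h2 h3 => (min_le_left _ _).trans (hsep x hx r h1 h2 h3)
    align := halign
    smooth_a := ha
    a_one := ha1
    a_zero := ha0 }⟩

end Pool.Agent.helper68.B2
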